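import Pool.Agent.Helper741.Presentation

set_option autoImplicit false

namespace Pool.Agent.Results.MP_6d85b4_al.CenterInPureCommutator

open Pool.Agent.Helper741

/-- For every finite Coxeter matrix with connected Coxeter graph and infinite Coxeter group, the
centre of the Artin group is contained in the commutator subgroup of the pure Artin group (the
kernel of the canonical map `π` to the Coxeter group). -/
theorem result :
    ∀ (n : ℕ) (M : CoxeterMatrix (Fin n)),
      (SimpleGraph.fromRel (fun i j : Fin n => M i j ≠ 2)).Connected →
      Infinite M.Group →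
      ∀ π : PresentedGroup
          {r : FreeGroup (Fin n) | ∃ i j : Fin n, M i j ≠ 0 ∧
            r = ((CoxeterSystem.alternatingWord i j (M i j)).map FreeGroup.of).prod *
              (((CoxeterSystem.alternatingWord j i (M i j)).map FreeGroup.of).prod)⁻¹} →*
          M.Group,
        (∀ i, π (PresentedGroup.of i) = M.simple i) →
        Subgroup.center
          (PresentedGroup
            {r : FreeGroup (Fin n) | ∃ i j : Fin n, M i j ≠ 0 ∧
              r = ((CoxeterSystem.alternatingWord i j (M i j)).map FreeGroup.of).prod *
                (((CoxeterSystem.alternatingWord j i (M i j)).map FreeGroup.of).prod)⁻¹}) ≤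
          ⁅π.ker, π.ker⁆ := by
  intro n M hconn hinf π hπ z hz
  have hirr := irr_of_connected M hconn
  set cs := M.toCoxeterSystem with hcs
  have hcomp : π.comp (relEquiv M).toMonoidHom = Artin.toCox cs := by
    apply Artin.hom_ext
    intro i
    rw [MonoidHom.comp_apply]
    change π (relEquiv M (Artin.gen M i)) = _
    rw [relEquiv_gen, Artin.toCox_gen, hπ]
    rfl
  have hz' : (relEquiv M).symm z ∈ Subgroup.center (Artin M) := by
    rw [Subgroup.mem_center_iff] at hz ⊢
    intro g
    have := hz (relEquiv M g)
    have h2 := congrArg (relEquiv M).symm this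
    simpa using h2
  have h1 := center_le cs hirr hinf hz'
  have h2 : Subgroup.map (relEquiv M).toMonoidHom (PP cs) ≤ ⁅π.ker, π.ker⁆ := by
    rw [PP, Subgroup.map_commutator]
    have h3 : Subgroup.map (relEquiv M).toMonoidHom (Artin.toCox cs).ker ≤ π.ker := by
      rintro _ ⟨x, hx, rfl⟩
      rw [MonoidHom.mem_ker, ← MonoidHom.comp_apply, hcomp]
      exact hx
    exact Subgroup.commutator_mono h3 h3
  apply h2
  exact ⟨(relEquiv M).symm z, h1, (relEquiv M).apply_symm_apply z⟩

/-- Sanity check: the canonical map exists. -/
theorem exists_canonical_map (n : ℕ) (M : CoxeterMatrix (Fin n)) :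
    ∃ π : PresentedGroup
          {r : FreeGroup (Fin n) | ∃ i j : Fin n, M i j ≠ 0 ∧
            r = ((CoxeterSystem.alternatingWord i j (M i j)).map FreeGroup.of).prod *
              (((CoxeterSystem.alternatingWord j i (M i j)).map FreeGroup.of).prod)⁻¹} →*
          M.Group, ∀ i, π (PresentedGroup.of i) = M.simple i := by
  refine ⟨(Artin.toCox M.toCoxeterSystem).comp (relEquiv M).symm.toMonoidHom, fun i => ?_⟩
  have h : (relEquiv M).symm (PresentedGroup.of i) = Artin.gen M i := by
    rw [← relEquiv_gen, MulEquiv.symm_apply_apply]
  change Artin.toCox M.toCoxeterSystem ((relEquiv M).symm (PresentedGroup.of i)) = _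
  rw [h, Artin.toCox_gen]
  rfl

end Pool.Agent.Results.MP_6d85b4_al.CenterInPureCommutator
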